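import Mathlib

/-!
# Every semidihedral 2-group is R-sequenceable

`SD n` is the group with presentation `⟨a, b | a^(2^(n-1)) = b^2 = 1, b a b⁻¹ = a^(2^(n-2) - 1)⟩`.
We show that for every `n ≥ 4` its non-identity elements can be listed cyclically so that all
cyclic consecutive quotients `x⁻¹ y` are pairwise distinct.

With `q = 2^(n-4)` the group has order `16 q`; write `(i, false)` for `a^i` and `(i, true)` for
`a^i b`, `i` modulo `8 q`.  The listing is made of four zigzags, in which reflections occur in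
pairs `(v, true), (-1-v, true)` and rotations in pairs `(x, false), (-x, false)`, the rotation
`4 q` standing alone.  In each zigzag all quotients run through arithmetic progressions of
step `4`.
-/

set_option autoImplicit false
set_option maxHeartbeats 4000000

namespace Pool.Agent.Results.MP_d3366a_al.SemidihedralRSequenceable

/-- The relators of the presentation of the semidihedral group of order `2^n`; the generator
`false` is `a` and the generator `true` is `b`:
`a^(2^(n-1))`, `b^2` and `b a b⁻¹ (a^(2^(n-2)-1))⁻¹`. -/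
def sdRels (n : ℕ) : Set (FreeGroup Bool) :=
  {FreeGroup.of false ^ (2 ^ (n - 1)),
   FreeGroup.of true ^ 2,
   FreeGroup.of true * FreeGroup.of false * (FreeGroup.of true)⁻¹ *
     (FreeGroup.of false ^ (2 ^ (n - 2) - 1))⁻¹}

/-- The semidihedral group of order `2^n` (for `n ≥ 4`), given by its presentation. -/
abbrev SD (n : ℕ) : Type := PresentedGroup (sdRels n)

/-- A group is R-sequenceable if its non-identity elements can be listed, each exactly once, as
`x_1, ..., x_{m-1}` so that the quotients `x_1⁻¹ x_2, x_2⁻¹ x_3, ..., x_{m-1}⁻¹ x_1` are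
pairwise distinct. -/
def RSequenceable (G : Type) [Group G] : Prop :=
  ∃ l : List G, l.Nodup ∧ (∀ g : G, g ∈ l ↔ g ≠ 1) ∧
    (List.zipWith (fun x y => x⁻¹ * y) l (l.rotate 1)).Nodup

/-! ### The explicit model of the group -/

/-- The model: `⟨i, false⟩` is `a^i`, `⟨i, true⟩` is `a^i b`. -/
@[ext] structure Mdl (q : ℕ) : Type where
  i : ZMod (8 * q)
  e : Bool

/-- The exponent `r` with `b a b⁻¹ = a^r`. -/
def rr (q : ℕ) : ZMod (8 * q) := 4 * q - 1

lemma eight (q : ℕ) : (8 : ZMod (8 * q)) * (q : ZMod (8 * q)) = 0 := by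
  have h := ZMod.natCast_self (8 * q)
  push_cast at h
  exact h

lemma rr_sq (q : ℕ) : rr q * rr q = 1 := by
  unfold rr
  have h := eight q
  linear_combination (2 * (q : ZMod (8 * q)) - 1) * h

lemma rr_even (q : ℕ) (t : ℤ) : rr q * ((2 * t : ℤ) : ZMod (8 * q)) = ((-(2 * t) : ℤ)) := by
  unfold rr
  have h := eight q
  push_cast
  linear_combination (t : ZMod (8 * q)) * h

lemma rr_odd (q : ℕ) (t : ℤ) :
    rr q * ((2 * t + 1 : ℤ) : ZMod (8 * q)) = ((4 * q - (2 * t + 1) : ℤ)) := by
  unfold rr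
  have h := eight q
  push_cast
  linear_combination (t : ZMod (8 * q)) * h

namespace Mdl

variable {q : ℕ}

instance : Mul (Mdl q) :=
  ⟨fun x y => ⟨x.i + (if x.e then rr q * y.i else y.i), xor x.e y.e⟩⟩
instance : One (Mdl q) := ⟨⟨0, false⟩⟩
instance : Inv (Mdl q) := ⟨fun x => ⟨if x.e then -(rr q * x.i) else -x.i, x.e⟩⟩

lemma mul_def (x y : Mdl q) :
    x * y = ⟨x.i + (if x.e then rr q * y.i else y.i), xor x.e y.e⟩ := rfl
lemma one_def : (1 : Mdl q) = ⟨0, false⟩ := rfl
lemma inv_def (x : Mdl q) : x⁻¹ = ⟨if x.e then -(rr q * x.i) else -x.i, x.e⟩ := rfl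

instance : Group (Mdl q) where
  mul_assoc x y z := by
    obtain ⟨x, e⟩ := x; obtain ⟨y, f⟩ := y; obtain ⟨z, g⟩ := z
    have h := rr_sq q
    cases e <;> cases f <;> cases g <;>
      simp only [mul_def, Bool.false_eq_true, if_true, if_false, Bool.xor_false, Bool.xor_true,
        Bool.not_true, Bool.not_false, Mdl.mk.injEq, and_true] <;>
      first
        | ring1
        | linear_combination (-z) * h
  one_mul x := by
    obtain ⟨x, e⟩ := x
    simp [mul_def, one_def]
  mul_one x := by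
    obtain ⟨x, e⟩ := x
    cases e <;> simp [mul_def, one_def]
  inv_mul_cancel x := by
    obtain ⟨x, e⟩ := x
    cases e <;> simp [mul_def, one_def, inv_def]

/-- The underlying type is a product. -/
def toProd : Mdl q ≃ ZMod (8 * q) × Bool where
  toFun x := (x.i, x.e)
  invFun p := ⟨p.1, p.2⟩
  left_inv _ := rfl
  right_inv _ := rfl

lemma card : Nat.card (Mdl q) = 16 * q := by
  rw [Nat.card_congr toProd, Nat.card_prod, Nat.card_zmod]
  simp
  ring

end Mdl

/-! ### The listing, by codes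

An element `⟨i, e⟩` has the code `i` (if `e = false`) or `8 q + i` (if `e = true`), a number
less than `16 q`; the identity has code `0`. -/

/-- The element with a given code. -/
def toM (q c : ℕ) : Mdl q :=
  if c < 8 * q then ⟨((c : ℤ) : ZMod (8 * q)), false⟩
  else ⟨((c : ℤ) - 8 * q : ℤ), true⟩

/-- The code of the element in position `4 a + c`, `c < 4`. -/
def f (q a : ℕ) : ℕ → ℕ
  | 0 => if a < q then 8 * q + 2 * a else if a < 2 * q then 16 * q - 1 - 2 * a
      else if a < 3 * q then 4 * q + 1 + 2 * a else 20 * q - 2 - 2 * a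
  | 1 => if a < q then 16 * q - 1 - 2 * a else if a < 2 * q then 8 * q + 2 * a
      else if a < 3 * q - 1 then 8 * q - 2 - 2 * a else 2 * a + 1 - 4 * q
  | 2 => if a < q then 2 * a + 2 else if a < 2 * q - 1 then 4 * q - 3 - 2 * a
      else if a < 3 * q - 1 then 2 * a + 2 else 12 * q - 1 - 2 * a
  | _ => if a < q then 8 * q - 2 - 2 * a else if a < 2 * q - 1 then 4 * q + 3 + 2 * a
      else if a < 3 * q - 1 then 20 * q - 4 - 2 * a else 4 * q + 3 + 2 * a

/-- The code of the quotient of the elements in positions `4 a + c` and `4 a + c + 1`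
(cyclically), `c < 4`. -/
def h (q a : ℕ) : ℕ → ℕ
  | 0 => if a < q then 4 * q + 1 + 4 * a else if a < 2 * q then 12 * q - 1 - 4 * a
      else if a < 3 * q - 1 then 3 + 4 * a else if a < 3 * q then 8 * q
      else 28 * q - 3 - 4 * a
  | 1 => if a < q then 12 * q - 3 - 4 * a else if a < 2 * q - 1 then 8 * q + 3 + 4 * a
      else if a < 2 * q then 16 * q - 2 else if a < 3 * q - 1 then 4 * a + 4 - 8 * q
      else 16 * q - 2 - 4 * a
  | 2 => if a < q then 8 * q - 4 - 4 * a else if a < 2 * q - 1 then 4 * a + 6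
      else if a < 3 * q - 1 then 20 * q - 6 - 4 * a
      else if a < 4 * q - 1 then 4 * a + 4 else 12 * q - 1
  | _ => if a < q - 1 then 8 * q + 4 + 4 * a else if a < q then 16 * q - 1
      else if a < 2 * q - 1 then 20 * q - 6 - 4 * a
      else if a < 3 * q - 1 then 12 * q - 7 - 4 * a else 4 * a + 7 - 12 * q

lemma f_lt (q a c : ℕ) (hc : c < 4) (hk : 4 * a + c < 16 * q - 1) : f q a c < 16 * q := by
  have hcc : c = 0 ∨ c = 1 ∨ c = 2 ∨ c = 3 := by omega
  rcases hcc with rfl | rfl | rfl | rfl <;> simp only [f] <;> split_ifs <;> omega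

lemma f_pos (q a c : ℕ) (hc : c < 4) (hk : 4 * a + c < 16 * q - 1) : 0 < f q a c := by
  have hcc : c = 0 ∨ c = 1 ∨ c = 2 ∨ c = 3 := by omega
  rcases hcc with rfl | rfl | rfl | rfl <;> simp only [f] <;> split_ifs <;> omega

lemma h_lt (q a c : ℕ) (hc : c < 4) (hk : 4 * a + c < 16 * q - 1) : h q a c < 16 * q := by
  have hcc : c = 0 ∨ c = 1 ∨ c = 2 ∨ c = 3 := by omega
  rcases hcc with rfl | rfl | rfl | rfl <;> simp only [h] <;> split_ifs <;> omega

lemma f_inj (q a c b d : ℕ) (hc : c < 4) (hd : d < 4) (ha : 4 * a + c < 16 * q - 1)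
    (hb : 4 * b + d < 16 * q - 1) (he : f q a c = f q b d) : a = b ∧ c = d := by
  have hcc : c = 0 ∨ c = 1 ∨ c = 2 ∨ c = 3 := by omega
  have hdd : d = 0 ∨ d = 1 ∨ d = 2 ∨ d = 3 := by omega
  rcases hcc with rfl | rfl | rfl | rfl <;> rcases hdd with rfl | rfl | rfl | rfl <;>
    simp only [f] at he <;> split_ifs at he <;> omega

lemma h_inj (q a c b d : ℕ) (hc : c < 4) (hd : d < 4) (ha : 4 * a + c < 16 * q - 1)
    (hb : 4 * b + d < 16 * q - 1) (he : h q a c = h q b d) : a = b ∧ c = d := by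
  have hcc : c = 0 ∨ c = 1 ∨ c = 2 ∨ c = 3 := by omega
  have hdd : d = 0 ∨ d = 1 ∨ d = 2 ∨ d = 3 := by omega
  rcases hcc with rfl | rfl | rfl | rfl <;> rcases hdd with rfl | rfl | rfl | rfl <;>
    simp only [h] at he <;> split_ifs at he <;> omega

/-- Arithmetic description of the quotient on codes. -/
def Good (q c d h : ℕ) : Prop :=
  (c < 8 * q ∧ d < 8 * q ∧ h < 8 * q ∧ (h + c = d ∨ h + c = d + 8 * q)) ∨
  (c < 8 * q ∧ 8 * q ≤ d ∧ 8 * q ≤ h ∧ (h + c = d ∨ h + c = d + 8 * q)) ∨
  (8 * q ≤ c ∧ (d < 8 * q ∧ 8 * q ≤ h ∨ 8 * q ≤ d ∧ h < 8 * q) ∧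
    ((d + c) % 2 = 0 ∧ (h + d = c ∨ h + d = c + 8 * q) ∨
     (d + c) % 2 = 1 ∧ (h + d + 4 * q = c ∨ h + d = c + 4 * q ∨ h + d = c + 12 * q)))

lemma good0 (q a : ℕ) (ha : 4 * a + 1 < 16 * q - 1) : Good q (f q a 0) (f q a 1) (h q a 0) := by
  simp only [f, h, Good]; split_ifs <;> omega

lemma good1 (q a : ℕ) (ha : 4 * a + 2 < 16 * q - 1) : Good q (f q a 1) (f q a 2) (h q a 1) := by
  simp only [f, h, Good]; split_ifs <;> omega

lemma good2 (q a : ℕ) (ha : 4 * a + 3 < 16 * q - 1) : Good q (f q a 2) (f q a 3) (h q a 2) := by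
  simp only [f, h, Good]; split_ifs <;> omega

lemma good3 (q a : ℕ) (ha : 4 * a + 4 < 16 * q - 1) :
    Good q (f q a 3) (f q (a + 1) 0) (h q a 3) := by
  simp only [f, h, Good]; split_ifs <;> omega

lemma good_last (q : ℕ) (hq : 0 < q) :
    Good q (f q (4 * q - 1) 2) (f q 0 0) (h q (4 * q - 1) 2) := by
  simp only [f, h, Good]; split_ifs <;> omega

/-! ### From codes to the group -/

lemma zc (q : ℕ) (x y m : ℤ) (hx : x = y + m * (8 * q)) :
    (x : ZMod (8 * q)) = (y : ZMod (8 * q)) := by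
  have h8 := eight q
  subst hx
  push_cast
  linear_combination (m : ZMod (8 * q)) * h8

lemma rr_even' (q : ℕ) (D X m : ℤ) (hD : D % 2 = 0) (hX : X = -D + m * (8 * q)) :
    rr q * (D : ZMod (8 * q)) = (X : ZMod (8 * q)) := by
  obtain ⟨t, rfl⟩ : ∃ t, D = 2 * t := ⟨D / 2, by omega⟩
  rw [rr_even, zc q X (-(2 * t)) m hX]

lemma rr_odd' (q : ℕ) (D X m : ℤ) (hD : D % 2 = 1) (hX : X = 4 * q - D + m * (8 * q)) :
    rr q * (D : ZMod (8 * q)) = (X : ZMod (8 * q)) := by
  obtain ⟨t, rfl⟩ : ∃ t, D = 2 * t + 1 := ⟨D / 2, by omega⟩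
  rw [rr_odd, zc q X (4 * q - (2 * t + 1)) m hX]

lemma toM_good (q c d k : ℕ) (hg : Good q c d k) : (toM q c)⁻¹ * toM q d = toM q k := by
  rcases hg with ⟨hc, hd, hk, e⟩ | ⟨hc, hd, hk, e⟩ | ⟨hc, ht, e⟩
  · simp only [toM, if_pos hc, if_pos hd, if_pos hk, Mdl.inv_def, Mdl.mul_def]
    ext
    · have : ((k : ℤ) : ZMod (8 * q)) = ((d - c : ℤ) : ZMod (8 * q)) := by
        rcases e with e | e
        · exact zc q _ _ 0 (by omega)
        · exact zc q _ _ 1 (by omega)
      simp only [Bool.false_eq_true, if_false]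
      rw [this]; push_cast; ring
    · rfl
  · have hd' : ¬ d < 8 * q := by omega
    have hk' : ¬ k < 8 * q := by omega
    simp only [toM, if_pos hc, if_neg hd', if_neg hk', Mdl.inv_def, Mdl.mul_def]
    ext
    · have : ((k - 8 * q : ℤ) : ZMod (8 * q)) = ((d - 8 * q - c : ℤ) : ZMod (8 * q)) := by
        rcases e with e | e
        · exact zc q _ _ 0 (by omega)
        · exact zc q _ _ 1 (by omega)
      simp only [Bool.false_eq_true, if_false]
      rw [this]; push_cast; ring
    · rfl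
  · have hc' : ¬ c < 8 * q := by omega
    rcases ht with ⟨hd, hk⟩ | ⟨hd, hk⟩
    · have hk' : ¬ k < 8 * q := by omega
      simp only [toM, if_neg hc', if_pos hd, if_neg hk', Mdl.inv_def, Mdl.mul_def]
      ext
      · have : rr q * ((d - c + 8 * q : ℤ) : ZMod (8 * q)) = ((k - 8 * q : ℤ) : ZMod (8 * q)) := by
          rcases e with ⟨p, e | e⟩ | ⟨p, e | e | e⟩
          · exact rr_even' q _ _ 0 (by omega) (by omega)
          · exact rr_even' q _ _ 1 (by omega) (by omega)
          · exact rr_odd' q _ _ (-1) (by omega) (by omega)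
          · exact rr_odd' q _ _ 0 (by omega) (by omega)
          · exact rr_odd' q _ _ 1 (by omega) (by omega)
        simp only [if_true]
        rw [← this]; push_cast; ring
      · rfl
    · have hd' : ¬ d < 8 * q := by omega
      simp only [toM, if_neg hc', if_neg hd', if_pos hk, Mdl.inv_def, Mdl.mul_def]
      ext
      · have : rr q * ((d - c : ℤ) : ZMod (8 * q)) = ((k : ℤ) : ZMod (8 * q)) := by
          rcases e with ⟨p, e | e⟩ | ⟨p, e | e | e⟩
          · exact rr_even' q _ _ 0 (by omega) (by omega)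
          · exact rr_even' q _ _ 1 (by omega) (by omega)
          · exact rr_odd' q _ _ (-1) (by omega) (by omega)
          · exact rr_odd' q _ _ 0 (by omega) (by omega)
          · exact rr_odd' q _ _ 1 (by omega) (by omega)
        simp only [if_true]
        rw [← this]; push_cast; ring
      · rfl

lemma cast_inj (q : ℕ) (x y : ℤ) (hx0 : 0 ≤ x) (hx : x < 8 * q) (hy0 : 0 ≤ y) (hy : y < 8 * q)
    (hxy : (x : ZMod (8 * q)) = (y : ZMod (8 * q))) : x = y := by
  have h1 := (ZMod.intCast_eq_intCast_iff x y (8 * q)).1 hxy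
  have h2 : x % (8 * q : ℤ) = y % (8 * q : ℤ) := by exact_mod_cast h1
  rwa [Int.emod_eq_of_lt hx0 hx, Int.emod_eq_of_lt hy0 hy] at h2

lemma toM_inj (q c d : ℕ) (hc : c < 16 * q) (hd : d < 16 * q) (he : toM q c = toM q d) :
    c = d := by
  unfold toM at he
  split_ifs at he with h1 h2 h2
  · have := cast_inj q c d (by omega) (by omega) (by omega) (by omega) (congrArg Mdl.i he)
    exact_mod_cast this
  · exact absurd (congrArg Mdl.e he) (by simp)
  · exact absurd (congrArg Mdl.e he) (by simp)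
  · have := cast_inj q (c - 8 * q) (d - 8 * q) (by omega) (by omega) (by omega) (by omega)
      (congrArg Mdl.i he)
    omega

lemma toM_zero (q : ℕ) (hq : 0 < q) : toM q 0 = 1 := by
  unfold toM
  rw [if_pos (by omega)]
  simp [Mdl.one_def]

/-- The listing, as elements of the model. -/
def lst (q : ℕ) : List (Mdl q) :=
  (List.range (16 * q - 1)).map fun k => toM q (f q (k / 4) (k % 4))

/-- The list of cyclic consecutive quotients. -/
def qlst (q : ℕ) : List (Mdl q) :=
  (List.range (16 * q - 1)).map fun k => toM q (h q (k / 4) (k % 4))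

lemma lst_nodup (q : ℕ) : (lst q).Nodup := by
  refine List.Nodup.map_on ?_ List.nodup_range
  intro x hx y hy hxy
  rw [List.mem_range] at hx hy
  have h1 := toM_inj q _ _ (f_lt q (x / 4) (x % 4) (by omega) (by omega))
    (f_lt q (y / 4) (y % 4) (by omega) (by omega)) hxy
  have h2 := f_inj q _ _ _ _ (by omega) (by omega) (by omega) (by omega) h1
  omega

lemma qlst_nodup (q : ℕ) : (qlst q).Nodup := by
  refine List.Nodup.map_on ?_ List.nodup_range
  intro x hx y hy hxy
  rw [List.mem_range] at hx hy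
  have h1 := toM_inj q _ _ (h_lt q (x / 4) (x % 4) (by omega) (by omega))
    (h_lt q (y / 4) (y % 4) (by omega) (by omega)) hxy
  have h2 := h_inj q _ _ _ _ (by omega) (by omega) (by omega) (by omega) h1
  omega

lemma good_step (q k : ℕ) (hq : 0 < q) (hk : k < 16 * q - 1) :
    Good q (f q (k / 4) (k % 4))
      (f q ((k + 1) % (16 * q - 1) / 4) ((k + 1) % (16 * q - 1) % 4))
      (h q (k / 4) (k % 4)) := by
  by_cases hl : k + 1 = 16 * q - 1
  · have e1 : k / 4 = 4 * q - 1 := by omega
    have e2 : k % 4 = 2 := by omega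
    rw [hl, Nat.mod_self, e1, e2]
    exact good_last q hq
  · have hm : (k + 1) % (16 * q - 1) = k + 1 := Nat.mod_eq_of_lt (by omega)
    rw [hm]
    have hcc : k % 4 = 0 ∨ k % 4 = 1 ∨ k % 4 = 2 ∨ k % 4 = 3 := by omega
    rcases hcc with e | e | e | e
    · have e1 : (k + 1) / 4 = k / 4 := by omega
      have e2 : (k + 1) % 4 = 1 := by omega
      rw [e, e1, e2]
      exact good0 q _ (by omega)
    · have e1 : (k + 1) / 4 = k / 4 := by omega
      have e2 : (k + 1) % 4 = 2 := by omega
      rw [e, e1, e2]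
      exact good1 q _ (by omega)
    · have e1 : (k + 1) / 4 = k / 4 := by omega
      have e2 : (k + 1) % 4 = 3 := by omega
      rw [e, e1, e2]
      exact good2 q _ (by omega)
    · have e1 : (k + 1) / 4 = k / 4 + 1 := by omega
      have e2 : (k + 1) % 4 = 0 := by omega
      rw [e, e1, e2]
      exact good3 q _ (by omega)

lemma zip_eq (q : ℕ) (hq : 0 < q) :
    List.zipWith (fun x y => x⁻¹ * y) (lst q) ((lst q).rotate 1) = qlst q := by
  apply List.ext_getElem
  · simp [lst, qlst]
  · intro k h1 h2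
    have hk : k < 16 * q - 1 := by simpa [qlst] using h2
    rw [List.getElem_zipWith, List.getElem_rotate]
    simp only [lst, qlst, List.getElem_map, List.getElem_range, List.length_map,
      List.length_range]
    exact toM_good q _ _ _ (good_step q k hq hk)

lemma lst_mem (q : ℕ) (hq : 0 < q) (g : Mdl q) : g ∈ lst q ↔ g ≠ 1 := by
  classical
  have : NeZero (8 * q) := ⟨by omega⟩
  have : Finite (Mdl q) := Finite.of_equiv _ Mdl.toProd.symm
  have := Fintype.ofFinite (Mdl q)
  have hne : ∀ x ∈ lst q, x ≠ 1 := by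
    intro x hx
    obtain ⟨k, hk, rfl⟩ := List.mem_map.1 hx
    rw [List.mem_range] at hk
    intro h0
    rw [← toM_zero q hq] at h0
    have h1 := toM_inj q _ _ (f_lt q (k / 4) (k % 4) (by omega) (by omega)) (by omega) h0
    have h2 := f_pos q (k / 4) (k % 4) (by omega) (by omega)
    omega
  have hsub : (lst q).toFinset ⊆ Finset.univ.erase 1 := by
    intro x hx
    exact Finset.mem_erase.2 ⟨hne x (List.mem_toFinset.1 hx), Finset.mem_univ x⟩
  have hcard : (Finset.univ.erase (1 : Mdl q)).card ≤ (lst q).toFinset.card := by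
    rw [List.toFinset_card_of_nodup (lst_nodup q), Finset.card_erase_of_mem (Finset.mem_univ _),
      Finset.card_univ, ← Nat.card_eq_fintype_card, Mdl.card]
    simp [lst]
  have heq := Finset.eq_of_subset_of_card_le hsub hcard
  rw [← List.mem_toFinset, heq]
  simp

lemma model_RSequenceable (q : ℕ) (hq : 0 < q) : RSequenceable (Mdl q) :=
  ⟨lst q, lst_nodup q, lst_mem q hq, by rw [zip_eq q hq]; exact qlst_nodup q⟩

/-- R-sequenceability is invariant under isomorphism. -/
lemma RSequenceable.congr {G K : Type} [Group G] [Group K] (e : G ≃* K)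
    (hG : RSequenceable G) : RSequenceable K := by
  obtain ⟨l, h1, h2, h3⟩ := hG
  refine ⟨l.map e, h1.map e.injective, ?_, ?_⟩
  · intro g
    rw [List.mem_map]
    constructor
    · rintro ⟨a, ha, rfl⟩ h0
      exact (h2 a).1 ha (e.map_eq_one_iff.1 h0)
    · intro hg
      refine ⟨e.symm g, (h2 _).2 ?_, e.apply_symm_apply g⟩
      intro h0
      exact hg (by rw [← e.apply_symm_apply g, h0, map_one])
  · have : List.zipWith (fun x y => x⁻¹ * y) (l.map e) ((l.map e).rotate 1) =
        (List.zipWith (fun x y => x⁻¹ * y) l (l.rotate 1)).map e := by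
      rw [← List.map_rotate, List.zipWith_map, List.map_zipWith]
      simp
    rw [this]
    exact h3.map e.injective

/-! ### The presentation -/

section presentation

variable (n : ℕ)

/-- The first generator of `SD n`. -/
def ga : SD n := PresentedGroup.of false
/-- The second generator of `SD n`. -/
def gb : SD n := PresentedGroup.of true

lemma ga_pow : ga n ^ (2 ^ (n - 1)) = 1 := by
  have := PresentedGroup.one_of_mem (rels := sdRels n)
    (x := FreeGroup.of false ^ (2 ^ (n - 1))) (by simp [sdRels])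
  simpa [ga, PresentedGroup.of] using this

lemma gb_sq : gb n ^ 2 = 1 := by
  have := PresentedGroup.one_of_mem (rels := sdRels n)
    (x := FreeGroup.of true ^ 2) (by simp [sdRels])
  simpa [gb, PresentedGroup.of] using this

lemma gb_conj : gb n * ga n * (gb n)⁻¹ = ga n ^ (2 ^ (n - 2) - 1) := by
  have := PresentedGroup.one_of_mem (rels := sdRels n)
    (x := FreeGroup.of true * FreeGroup.of false * (FreeGroup.of true)⁻¹ *
     (FreeGroup.of false ^ (2 ^ (n - 2) - 1))⁻¹) (by simp [sdRels])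
  rw [← mul_inv_eq_one]
  simpa [ga, gb, PresentedGroup.of] using this

end presentation

/-- The images of the generators in the model. -/
def img (q : ℕ) : Bool → Mdl q
  | false => ⟨1, false⟩
  | true => ⟨0, true⟩

lemma img_pow (q k : ℕ) : img q false ^ k = ⟨(k : ZMod (8 * q)), false⟩ := by
  induction k with
  | zero => simp [Mdl.one_def]
  | succ k ih => rw [pow_succ, ih]; simp [img, Mdl.mul_def]

lemma img_true_sq (q : ℕ) : img q true ^ 2 = 1 := by
  rw [pow_two]; simp [img, Mdl.mul_def, Mdl.one_def]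

lemma rels_img (m : ℕ) : ∀ x ∈ sdRels (m + 4), FreeGroup.lift (img (2 ^ m)) x = 1 := by
  intro x hx
  simp only [sdRels, Set.mem_insert_iff, Set.mem_singleton_iff] at hx
  have h8 : 2 ^ (m + 4 - 1) = 8 * 2 ^ m := by
    rw [show m + 4 - 1 = m + 3 by omega, pow_add]; ring
  have h4 : 2 ^ (m + 4 - 2) = 4 * 2 ^ m := by
    rw [show m + 4 - 2 = m + 2 by omega, pow_add]; ring
  rcases hx with rfl | rfl | rfl
  · simp only [map_pow, FreeGroup.lift_apply_of]
    rw [img_pow, h8, ZMod.natCast_self, Mdl.one_def]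
  · simp only [map_pow, FreeGroup.lift_apply_of]
    exact img_true_sq _
  · simp only [map_mul, map_inv, map_pow, FreeGroup.lift_apply_of]
    rw [mul_inv_eq_one, img_pow, h4]
    have hp : 1 ≤ 4 * 2 ^ m := by
      have := Nat.one_le_two_pow (n := m)
      omega
    rw [Nat.cast_sub hp]
    simp [img, Mdl.mul_def, Mdl.inv_def, rr]

/-- The homomorphism to the model. -/
def phi (m : ℕ) : SD (m + 4) →* Mdl (2 ^ m) := PresentedGroup.toGroup (rels_img m)

lemma phi_ga (m : ℕ) : phi m (ga (m + 4)) = img (2 ^ m) false := PresentedGroup.toGroup.of _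
lemma phi_gb (m : ℕ) : phi m (gb (m + 4)) = img (2 ^ m) true := PresentedGroup.toGroup.of _

lemma normal_form (m : ℕ) (g : SD (m + 4)) :
    ∃ (i : ℕ) (e : Bool), g = ga (m + 4) ^ i * (if e then gb (m + 4) else 1) := by
  have hb : gb (m + 4) * gb (m + 4) = 1 := by rw [← pow_two]; exact gb_sq _
  have hbi : (gb (m + 4))⁻¹ = gb (m + 4) := inv_eq_of_mul_eq_one_left hb
  have hai : (ga (m + 4))⁻¹ = ga (m + 4) ^ (2 ^ (m + 4 - 1) - 1) := by
    rw [inv_eq_iff_mul_eq_one, ← pow_succ',
      Nat.sub_add_cancel Nat.one_le_two_pow]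
    exact ga_pow _
  have hba : ∀ i : ℕ, gb (m + 4) * ga (m + 4) ^ i =
      ga (m + 4) ^ ((2 ^ (m + 4 - 2) - 1) * i) * gb (m + 4) := by
    intro i
    have h1 : (gb (m + 4) * ga (m + 4) * (gb (m + 4))⁻¹) ^ i =
        ga (m + 4) ^ ((2 ^ (m + 4 - 2) - 1) * i) := by
      rw [gb_conj, ← pow_mul]
    rw [conj_pow] at h1
    rw [← h1]; group
  have hstepa : ∀ (k : ℕ) (g : SD (m + 4)),
      (∃ (i : ℕ) (e : Bool), g = ga (m + 4) ^ i * (if e then gb (m + 4) else 1)) →
      ∃ (i : ℕ) (e : Bool), ga (m + 4) ^ k * g = ga (m + 4) ^ i * (if e then gb (m + 4) else 1) := by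
    rintro k g ⟨i, e, rfl⟩
    exact ⟨k + i, e, by rw [pow_add, mul_assoc]⟩
  have hstepb : ∀ g : SD (m + 4),
      (∃ (i : ℕ) (e : Bool), g = ga (m + 4) ^ i * (if e then gb (m + 4) else 1)) →
      ∃ (i : ℕ) (e : Bool), gb (m + 4) * g = ga (m + 4) ^ i * (if e then gb (m + 4) else 1) := by
    rintro g ⟨i, e, rfl⟩
    refine ⟨(2 ^ (m + 4 - 2) - 1) * i, !e, ?_⟩
    rw [← mul_assoc, hba, mul_assoc]
    cases e <;> simp [hb]
  have hcl : Subgroup.closure (Set.range (PresentedGroup.of : Bool → SD (m + 4))) = ⊤ :=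
    PresentedGroup.closure_range_of _
  have hg : g ∈ Subgroup.closure (Set.range (PresentedGroup.of : Bool → SD (m + 4))) := by
    rw [hcl]; exact Subgroup.mem_top g
  induction hg using Subgroup.closure_induction_left with
  | one => exact ⟨0, false, by simp⟩
  | mul_left x hx y _ hy =>
    obtain ⟨b, rfl⟩ := hx
    cases b
    · have := hstepa 1 y hy
      simpa [ga] using this
    · exact hstepb y hy
  | inv_mul_cancel x hx y _ hy =>
    obtain ⟨b, rfl⟩ := hx
    cases b
    · have := hstepa (2 ^ (m + 4 - 1) - 1) y hy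
      rw [← hai] at this
      exact this
    · obtain ⟨i, e, hie⟩ := hstepb y hy
      refine ⟨i, e, ?_⟩
      rw [← hie]
      exact congrArg (· * y) hbi

lemma normal_form' (m : ℕ) (g : SD (m + 4)) :
    ∃ (i : ℕ) (e : Bool), i < 8 * 2 ^ m ∧
      g = ga (m + 4) ^ i * (if e then gb (m + 4) else 1) := by
  obtain ⟨i, e, rfl⟩ := normal_form m g
  have h8 : 2 ^ (m + 4 - 1) = 8 * 2 ^ m := by
    rw [show m + 4 - 1 = m + 3 by omega, pow_add]; ring
  refine ⟨i % (8 * 2 ^ m), e, Nat.mod_lt _ (by positivity), ?_⟩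
  congr 1
  have hp := ga_pow (m + 4)
  rw [h8] at hp
  conv_lhs => rw [← Nat.div_add_mod i (8 * 2 ^ m), pow_add, pow_mul, hp, one_pow, one_mul]

lemma phi_nf (m i : ℕ) (e : Bool) :
    phi m (ga (m + 4) ^ i * (if e then gb (m + 4) else 1)) = ⟨(i : ZMod (8 * 2 ^ m)), e⟩ := by
  rw [map_mul, map_pow, phi_ga, img_pow]
  cases e
  · simp [Mdl.mul_def, Mdl.one_def]
  · simp [phi_gb, img, Mdl.mul_def]

lemma phi_bijective (m : ℕ) : Function.Bijective (phi m) := by
  constructor
  · intro g g' hgg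
    obtain ⟨i, e, hi, rfl⟩ := normal_form' m g
    obtain ⟨j, e', hj, rfl⟩ := normal_form' m g'
    rw [phi_nf, phi_nf] at hgg
    have h1 : (i : ZMod (8 * 2 ^ m)) = (j : ZMod (8 * 2 ^ m)) := congrArg Mdl.i hgg
    have h2 : e = e' := congrArg Mdl.e hgg
    have h3 : i = j := by
      have := (ZMod.natCast_eq_natCast_iff i j (8 * 2 ^ m)).1 h1
      exact Nat.ModEq.eq_of_lt_of_lt this hi hj
    rw [h2, h3]
  · rintro ⟨x, e⟩
    have : NeZero (8 * 2 ^ m) := ⟨by positivity⟩
    refine ⟨ga (m + 4) ^ x.val * (if e then gb (m + 4) else 1), ?_⟩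
    rw [phi_nf, ZMod.natCast_zmod_val]

/-- Sanity check: `SD n` has order `2^n` for `n ≥ 4`. -/
theorem card_SD (n : ℕ) (hn : 4 ≤ n) : Nat.card (SD n) = 2 ^ n := by
  obtain ⟨m, rfl⟩ : ∃ m, n = m + 4 := ⟨n - 4, by omega⟩
  rw [Nat.card_congr (Equiv.ofBijective _ (phi_bijective m)), Mdl.card, pow_add]
  ring

/-- **Main theorem.** For every `n ≥ 4` the semidihedral group of order `2^n` is
R-sequenceable. -/
theorem result (n : ℕ) (hn : 4 ≤ n) : RSequenceable (SD n) := by
  obtain ⟨m, rfl⟩ : ∃ m, n = m + 4 := ⟨n - 4, by omega⟩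
  exact (model_RSequenceable (2 ^ m) (by positivity)).congr
    (MulEquiv.ofBijective (phi m) (phi_bijective m)).symm

end Pool.Agent.Results.MP_d3366a_al.SemidihedralRSequenceable
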